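import Pool.Agent.helper169_cat.Defs

set_option autoImplicit false

universe v

namespace Pool.Agent.H169C

open Filter Topology

/-! ### The Cayley graph -/

section Graph

variable {G : Type v} [Group G] (S : Finset G) (Γ : SimpleGraph G)

theorem ma_adj (hΓ : Γ = SimpleGraph.fromRel (fun a b : G => a⁻¹ * b ∈ S)) (a b : G) :
    Γ.Adj a b ↔ a ≠ b ∧ (a⁻¹ * b ∈ S ∨ b⁻¹ * a ∈ S) := by
  rw [hΓ, SimpleGraph.fromRel_adj]

theorem ma_reach (hS : Subgroup.closure (S : Set G) = ⊤)
    (hΓ : Γ = SimpleGraph.fromRel (fun a b : G => a⁻¹ * b ∈ S)) (a g : G) :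
    Γ.Reachable a (a * g) := by
  have hg : g ∈ Subgroup.closure (S : Set G) := by rw [hS]; trivial
  have key : ∀ g ∈ Subgroup.closure (S : Set G), ∀ a : G, Γ.Reachable a (a * g) := by
    intro g hg
    induction hg using Subgroup.closure_induction with
    | mem x hx =>
      intro a
      by_cases e : a = a * x
      · rw [← e]
      · refine SimpleGraph.Adj.reachable ((ma_adj S Γ hΓ _ _).2 ⟨e, Or.inl ?_⟩)
        rw [inv_mul_cancel_left]
        exact hx
    | one => intro a; rw [mul_one]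
    | mul x y _ _ hx hy =>
      intro a
      rw [← mul_assoc]
      exact (hx a).trans (hy (a * x))
    | inv x _ hx =>
      intro a
      have := hx (a * x⁻¹)
      rw [inv_mul_cancel_right] at this
      exact this.symm
  exact key g hg a

theorem ma_conn (hS : Subgroup.closure (S : Set G) = ⊤)
    (hΓ : Γ = SimpleGraph.fromRel (fun a b : G => a⁻¹ * b ∈ S)) : Γ.Connected := by
  have : Nonempty G := ⟨1⟩
  refine SimpleGraph.Connected.mk ?_
  intro a b
  have := ma_reach S Γ hS hΓ a (a⁻¹ * b)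
  rwa [mul_inv_cancel_left] at this

theorem ma_ball (hS : Subgroup.closure (S : Set G) = ⊤)
    (hΓ : Γ = SimpleGraph.fromRel (fun a b : G => a⁻¹ * b ∈ S)) (g : G) (n : ℕ) :
    {h | Γ.dist g h ≤ n}.Finite := by
  classical
  induction n with
  | zero =>
    refine (Set.finite_singleton g).subset ?_
    intro h hh
    have h0 : Γ.dist g h = 0 := Nat.le_zero.1 hh
    rw [(ma_conn S Γ hS hΓ).dist_eq_zero_iff] at h0
    exact h0.symm
  | succ n ih =>
    have hfin : (⋃ h' ∈ {h | Γ.dist g h ≤ n}, (insert h' (((S.image (fun s => h' * s)) ∪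
        (S.image (fun s => h' * s⁻¹)) : Finset G) : Set G))).Finite :=
      ih.biUnion fun h' _ => (Finset.finite_toSet _).insert h'
    refine hfin.subset ?_
    intro h hh
    rw [Set.mem_iUnion₂]
    obtain ⟨p, hp⟩ := (ma_conn S Γ hS hΓ).exists_walk_length_eq_dist h g
    cases p with
    | nil =>
      exact ⟨g, by rw [Set.mem_ofPred_eq, SimpleGraph.dist_self]; exact Nat.zero_le _,
        Set.mem_insert _ _⟩
    | @cons _ h' _ hadj q =>
      refine ⟨h', ?_, ?_⟩
      · have h1 : Γ.dist h' g ≤ q.length := SimpleGraph.dist_le q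
        rw [SimpleGraph.Walk.length_cons] at hp
        have h2 : Γ.dist g h ≤ n + 1 := hh
        rw [SimpleGraph.dist_comm] at h2
        rw [Set.mem_ofPred_eq, SimpleGraph.dist_comm]
        omega
      · refine Set.mem_insert_of_mem _ ?_
        rw [ma_adj S Γ hΓ] at hadj
        rcases hadj.2 with h1 | h1
        · refine Finset.mem_union_right _ (Finset.mem_image.2 ⟨_, h1, ?_⟩)
          group
        · refine Finset.mem_union_left _ (Finset.mem_image.2 ⟨_, h1, ?_⟩)
          group

theorem ma_countable (hS : Subgroup.closure (S : Set G) = ⊤)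
    (hΓ : Γ = SimpleGraph.fromRel (fun a b : G => a⁻¹ * b ∈ S)) : Countable G := by
  rw [← Set.countable_univ_iff]
  have : (Set.univ : Set G) = ⋃ n : ℕ, {h | Γ.dist 1 h ≤ n} := by
    ext h
    simp only [Set.mem_univ, Set.mem_iUnion, true_iff]
    exact ⟨Γ.dist 1 h, (le_refl _ : Γ.dist 1 h ≤ Γ.dist 1 h)⟩
  rw [this]
  exact Set.countable_iUnion fun n => (ma_ball S Γ hS hΓ 1 n).countable

omit [Group G] in
/-- from neighbours to all pairs -/
theorem ma_chain {Γ : SimpleGraph G} (hc : Γ.Connected) (φ : G → G → ℝ) (η : ℝ) (h0 : ∀ g, φ g g ≤ 0)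
    (h1 : ∀ g h, Γ.dist g h ≤ 1 → φ g h ≤ η) (h2 : ∀ a b c, φ a c ≤ φ a b + φ b c) (g h : G) :
    φ g h ≤ η * Γ.dist g h := by
  obtain ⟨p, hp⟩ := hc.exists_walk_length_eq_dist g h
  rw [← hp]
  clear hp
  induction p with
  | nil => simpa using h0 _
  | @cons a b c hadj q ih =>
    have h3 : Γ.dist a b ≤ 1 := by
      have := SimpleGraph.dist_le (SimpleGraph.Walk.cons hadj SimpleGraph.Walk.nil)
      simpa using this
    have h4 := h1 a b h3
    have h5 := h2 a b c
    rw [SimpleGraph.Walk.length_cons]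
    push_cast
    linarith

end Graph

/-! ### Annuli -/

/-- the distance of normalised characteristic functions -/
noncomputable def dl {Q : Type v} [DecidableEq Q] (A B : Finset Q) : ℝ :=
  2 - 2 * ((A ∩ B).card : ℝ) / Real.sqrt ((A.card : ℝ) * B.card)

section Ann

variable {Q : Type v} [DecidableEq Q]

theorem dl_le_two (A B : Finset Q) : dl A B ≤ 2 := by
  unfold dl
  have : 0 ≤ 2 * ((A ∩ B).card : ℝ) / Real.sqrt ((A.card : ℝ) * B.card) := by positivity
  linarith

theorem dl_self (A : Finset Q) (hA : A.Nonempty) : dl A A = 0 := by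
  unfold dl
  have h : (0 : ℝ) < A.card := by exact_mod_cast hA.card_pos
  rw [Finset.inter_self, Real.sqrt_mul_self h.le]
  field_simp
  ring

theorem dl_disj (A B : Finset Q) (h : A ∩ B = ∅) : dl A B = 2 := by
  unfold dl
  rw [h]
  simp

theorem dl_ann (A B A0 A2 : Finset Q) (h0 : A0.Nonempty) (hA : A0 ⊆ A) (hB : A0 ⊆ B) (hA2 : A ⊆ A2)
    (hB2 : B ⊆ A2) : dl A B ≤ 2 * (Real.log A2.card - Real.log A0.card) := by
  have c0 : (0 : ℝ) < A0.card := by exact_mod_cast h0.card_pos
  have c1 : (A0.card : ℝ) ≤ A.card := by exact_mod_cast Finset.card_le_card hA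
  have c2 : (A0.card : ℝ) ≤ B.card := by exact_mod_cast Finset.card_le_card hB
  have c3 : (A.card : ℝ) ≤ A2.card := by exact_mod_cast Finset.card_le_card hA2
  have c4 : (B.card : ℝ) ≤ A2.card := by exact_mod_cast Finset.card_le_card hB2
  have c5 : (A0.card : ℝ) ≤ (A ∩ B).card := by
    exact_mod_cast Finset.card_le_card (Finset.subset_inter hA hB)
  have c6 : Real.sqrt ((A.card : ℝ) * B.card) ≤ A2.card := by
    rw [Real.sqrt_le_left (by positivity)]
    nlinarith
  have c7 : 0 < Real.sqrt ((A.card : ℝ) * B.card) := by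
    apply Real.sqrt_pos.2
    have h1 : (0 : ℝ) < A.card := by linarith
    have h2 : (0 : ℝ) < B.card := by linarith
    positivity
  have c8 : (0 : ℝ) < A2.card := by linarith
  have h1 : (A0.card : ℝ) / A2.card ≤ ((A ∩ B).card : ℝ) / Real.sqrt ((A.card : ℝ) * B.card) :=
    div_le_div₀ (by positivity) c5 c7 c6
  have h2 := Real.log_le_sub_one_of_pos (x := (A0.card : ℝ) / A2.card) (by positivity)
  rw [Real.log_div c0.ne' c8.ne'] at h2
  unfold dl
  have h3 : 2 * ((A ∩ B).card : ℝ) / Real.sqrt ((A.card : ℝ) * B.card) =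
    2 * (((A ∩ B).card : ℝ) / Real.sqrt ((A.card : ℝ) * B.card)) := by ring
  rw [h3]
  linarith

/-- the sum over the annuli -/
theorem dl_sum (m : ℕ) (A B : ℕ → Finset Q) (hne : (A 0).Nonempty)
    (h1 : ∀ i, A i ⊆ B (i + 1)) (h2 : ∀ i, B i ⊆ A (i + 1)) (hm : Monotone A) :
    ∑ i ∈ Finset.range m, dl (A (i + 1)) (B (i + 1)) ≤ 4 * Real.log (A (m + 1)).card := by
  have hne' : ∀ i, (A i).Nonempty := fun i => hne.mono (hm (Nat.zero_le i))
  have hcard : ∀ i, (1 : ℝ) ≤ (A i).card := fun i => by exact_mod_cast (hne' i).card_pos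
  have hlog : ∀ i, 0 ≤ Real.log (A i).card := fun i => Real.log_nonneg (hcard i)
  have step : ∀ i, dl (A (i + 1)) (B (i + 1)) ≤
      2 * (Real.log (A (i + 2)).card - Real.log (A i).card) := fun i =>
    dl_ann _ _ (A i) (A (i + 2)) (hne' i) (hm (Nat.le_succ i)) (h1 i) (hm (Nat.le_succ _)) (h2 _)
  have tele : ∑ i ∈ Finset.range m, (Real.log (A (i + 2)).card - Real.log (A i).card) =
      Real.log (A (m + 1)).card + Real.log (A m).card - Real.log (A 1).card -
        Real.log (A 0).card := by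
    induction m with
    | zero => simp
    | succ m ih =>
      rw [Finset.sum_range_succ, ih]
      ring
  calc ∑ i ∈ Finset.range m, dl (A (i + 1)) (B (i + 1))
      ≤ ∑ i ∈ Finset.range m, 2 * (Real.log (A (i + 2)).card - Real.log (A i).card) :=
        Finset.sum_le_sum fun i _ => step i
    _ = 2 * (Real.log (A (m + 1)).card + Real.log (A m).card - Real.log (A 1).card -
        Real.log (A 0).card) := by rw [← Finset.mul_sum, tele]
    _ ≤ 4 * Real.log (A (m + 1)).card := by
      have h3 : Real.log (A m).card ≤ Real.log (A (m + 1)).card :=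
        Real.log_le_log (by linarith [hcard m]) (by exact_mod_cast Finset.card_le_card (hm (Nat.le_succ m)))
      linarith [hlog 1, hlog 0]

end Ann

/-! ### Residues -/

theorem ma_floor (T : ℕ) (hT : 0 < T) (X Y : ℤ) (Λ : ℕ) (h : |X - Y| ≤ Λ) :
    ((Finset.range T).filter (fun τ : ℕ => (X - τ) / (T : ℤ) ≠ (Y - τ) / (T : ℤ))).card ≤ Λ := by
  wlog hXY : X ≤ Y generalizing X Y
  · have := this Y X (by rwa [abs_sub_comm]) (le_of_not_ge hXY)
    refine le_trans (le_of_eq ?_) this
    congr 1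
    ext τ
    simp only [Finset.mem_filter, ne_eq]
    constructor
    · rintro ⟨a, b⟩
      exact ⟨a, fun h => b h.symm⟩
    · rintro ⟨a, b⟩
      exact ⟨a, fun h => b h.symm⟩
  have hT' : (0 : ℤ) < T := by exact_mod_cast hT
  have hsub : (Finset.range T).filter (fun τ : ℕ => (X - τ) / (T : ℤ) ≠ (Y - τ) / (T : ℤ)) ⊆
      (Finset.Ioc X Y).image (fun b : ℤ => (b % (T : ℤ)).toNat) := by
    intro τ hτ
    rw [Finset.mem_filter, Finset.mem_range] at hτ
    obtain ⟨h1, h2⟩ := hτ
    rw [Finset.mem_image]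
    refine ⟨τ + T * ((Y - τ) / (T : ℤ)), ?_, ?_⟩
    · rw [Finset.mem_Ioc]
      have h3 : (X - τ) / (T : ℤ) ≤ (Y - τ) / (T : ℤ) := Int.ediv_le_ediv hT' (by omega)
      have h4 : (X - τ) / (T : ℤ) < (Y - τ) / (T : ℤ) := lt_of_le_of_ne h3 h2
      constructor
      · have h5 : X - τ < (T : ℤ) * ((Y - τ) / (T : ℤ)) := by
          have h6 := Int.lt_ediv_add_one_mul_self (X - τ) hT'
          have h7 : ((X - τ) / (T : ℤ) + 1) * T ≤ ((Y - τ) / (T : ℤ)) * T :=
            mul_le_mul_of_nonneg_right (by omega) hT'.le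
          rw [mul_comm (T : ℤ)]
          omega
        omega
      · have h5 := Int.mul_ediv_self_le (x := Y - τ) (k := (T : ℤ)) hT'.ne'
        omega
    · rw [Int.add_mul_emod_self_left, Int.emod_eq_of_lt (by omega) (by omega)]
      simp
  refine (Finset.card_le_card hsub).trans (Finset.card_image_le.trans ?_)
  rw [Int.card_Ioc]
  rw [abs_sub_comm, abs_of_nonneg (by omega)] at h
  omega

/-! ### Vectors -/

section Vec

variable {K : Type} {G : Type v} [DecidableEq K] [DecidableEq G]

/-- coordinates -/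
noncomputable def mv (I : Finset K) (A : K → Finset G) (x : K × G) : ℝ :=
  if x.1 ∈ I ∧ x.2 ∈ A x.1 then 1 / Real.sqrt ((I.card : ℝ) * (A x.1).card) else 0

theorem mv_zero (I : Finset K) (A : K → Finset G) (x : K × G) (h : x ∉ I ×ˢ I.biUnion A) :
    mv I A x = 0 := by
  unfold mv
  rw [if_neg]
  rintro ⟨h1, h2⟩
  exact h (Finset.mem_product.2 ⟨h1, Finset.mem_biUnion.2 ⟨x.1, h1, h2⟩⟩)

theorem mv_mem (I : Finset K) (A : K → Finset G) :
    Memℓp (E := fun _ : K × G => ℝ) (mv I A) 2 := by
  refine memℓp_gen ?_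
  refine summable_of_ne_finset_zero (s := I ×ˢ I.biUnion A) fun x hx => ?_
  rw [mv_zero I A x hx]
  simp

/-- the vector -/
noncomputable def mvl (I : Finset K) (A : K → Finset G) : lp (fun _ : K × G => ℝ) 2 :=
  ⟨mv I A, mv_mem I A⟩

theorem lp_norm_sq {J : Type v} (f : lp (fun _ : J => ℝ) 2) : ‖f‖ ^ 2 = ∑' i, (f i) ^ 2 := by
  have h := lp.norm_rpow_eq_tsum (p := 2) (by norm_num) f
  simp only [ENNReal.toReal_ofNat, Real.rpow_ofNat, Real.norm_eq_abs, sq_abs] at h
  exact h

theorem mvl_dist (I : Finset K) (hI : I.Nonempty) (A B : K → Finset G)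
    (hA : ∀ k ∈ I, (A k).Nonempty) (hB : ∀ k ∈ I, (B k).Nonempty) :
    ‖mvl I A - mvl I B‖ ^ 2 = 1 / (I.card : ℝ) * ∑ k ∈ I, dl (A k) (B k) := by
  rw [lp_norm_sq]
  have e1 : ∀ x : K × G, (mvl I A - mvl I B) x = mv I A x - mv I B x := fun x => rfl
  simp only [e1]
  have hcI : (0 : ℝ) < I.card := by exact_mod_cast hI.card_pos
  set U : Finset G := I.biUnion A ∪ I.biUnion B with hU
  rw [tsum_eq_sum (s := I ×ˢ U) ?_]
  · rw [Finset.sum_product, Finset.mul_sum]
    refine Finset.sum_congr rfl fun k hk => ?_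
    have hAU : A k ⊆ U := (Finset.subset_biUnion_of_mem A hk).trans Finset.subset_union_left
    have hBU : B k ⊆ U := (Finset.subset_biUnion_of_mem B hk).trans Finset.subset_union_right
    have cA : (0 : ℝ) < (A k).card := by exact_mod_cast (hA k hk).card_pos
    have cB : (0 : ℝ) < (B k).card := by exact_mod_cast (hB k hk).card_pos
    set a : ℝ := 1 / Real.sqrt ((I.card : ℝ) * (A k).card) with ha
    set b : ℝ := 1 / Real.sqrt ((I.card : ℝ) * (B k).card) with hb
    have e2 : ∀ q, (mv I A (k, q) - mv I B (k, q)) ^ 2 =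
        (if q ∈ A k then a ^ 2 else 0) + (if q ∈ B k then b ^ 2 else 0) -
          (if q ∈ A k ∩ B k then 2 * (a * b) else 0) := by
      intro q
      have m1 : mv I A (k, q) = if q ∈ A k then a else 0 := by
        unfold mv
        simp only [hk, true_and]
        rfl
      have m2 : mv I B (k, q) = if q ∈ B k then b else 0 := by
        unfold mv
        simp only [hk, true_and]
        rfl
      rw [m1, m2]
      by_cases h1 : q ∈ A k <;> by_cases h2 : q ∈ B k <;> simp [h1, h2]
      ring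
    simp only [e2, Finset.sum_sub_distrib, Finset.sum_add_distrib, Finset.sum_ite_mem,
      Finset.sum_const, nsmul_eq_mul]
    rw [Finset.inter_eq_right.2 hAU, Finset.inter_eq_right.2 hBU,
      Finset.inter_eq_right.2 (Finset.inter_subset_left.trans hAU)]
    have ha2 : a ^ 2 = 1 / ((I.card : ℝ) * (A k).card) := by
      rw [ha, div_pow, one_pow, Real.sq_sqrt (by positivity)]
    have hb2 : b ^ 2 = 1 / ((I.card : ℝ) * (B k).card) := by
      rw [hb, div_pow, one_pow, Real.sq_sqrt (by positivity)]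
    have hab : a * b = 1 / ((I.card : ℝ) * Real.sqrt (((A k).card : ℝ) * (B k).card)) := by
      rw [ha, hb, one_div_mul_one_div, ← Real.sqrt_mul (by positivity)]
      congr 1
      rw [show (I.card : ℝ) * (A k).card * ((I.card : ℝ) * (B k).card) =
        (I.card : ℝ) ^ 2 * (((A k).card : ℝ) * (B k).card) by ring,
        Real.sqrt_mul (by positivity), Real.sqrt_sq hcI.le]
    have hs : 0 < Real.sqrt (((A k).card : ℝ) * (B k).card) := Real.sqrt_pos.2 (by positivity)
    rw [ha2, hb2, hab]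
    unfold dl
    field_simp
    ring
  · intro x hx
    have h1 : mv I A x = 0 := mv_zero I A x fun h => hx (by
      rw [Finset.mem_product] at h ⊢
      exact ⟨h.1, Finset.mem_union_left _ h.2⟩)
    have h2 : mv I B x = 0 := mv_zero I B x fun h => hx (by
      rw [Finset.mem_product] at h ⊢
      exact ⟨h.1, Finset.mem_union_right _ h.2⟩)
    rw [h1, h2]
    simp

end Vec

end Pool.Agent.H169C
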