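import Pool.Agent.Helper344_MA.B

set_option autoImplicit false

universe v

namespace Pool.Agent.H169C

open Filter Topology

theorem ext_sq {I : Type v} (e : I → ℕ) (he : Function.Injective e) (U : I → ℝ) :
    (fun n => (Function.extend e U 0 n) ^ 2) = Function.extend e (fun x => U x ^ 2) 0 := by
  funext n
  by_cases hn : ∃ x, e x = n
  · obtain ⟨x, rfl⟩ := hn
    rw [he.extend_apply, he.extend_apply]
  · rw [Function.extend_apply' _ _ _ hn, Function.extend_apply' _ _ _ hn]
    simp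

theorem ext_mem {I : Type v} (e : I → ℕ) (he : Function.Injective e) (U : I → ℝ)
    (hU : Summable fun x => U x ^ 2) : Memℓp (E := fun _ : ℕ => ℝ) (Function.extend e U 0) 2 := by
  refine memℓp_gen ?_
  simp only [ENNReal.toReal_ofNat, Real.rpow_ofNat, Real.norm_eq_abs, sq_abs]
  rw [ext_sq e he]
  exact (summable_extend_zero he).2 hU

theorem t_MACH : Stmt_MACH.{v} := by
  classical
  intro G _ S Γ hS hΓ H Λ hH hD hF
  have hconn := ma_conn S Γ hS hΓ
  have : Countable G := ma_countable S Γ hS hΓ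
  choose ξ D hξ1 hξ2 using fun k : ℕ => ma_partA S Γ hS hΓ H Λ hH hD hF ((1 / 4 : ℝ) ^ k) (by positivity)
  obtain ⟨e, he⟩ := exists_injective_nat (ℕ × ((ℕ × ℕ × ℕ) × G))
  -- distances
  have hξd : ∀ k g h, ‖ξ k g - ξ k h‖ ≤ (1 / 2 : ℝ) ^ k * Γ.dist g h := by
    intro k
    refine ma_chain hconn (fun g h => ‖ξ k g - ξ k h‖) _ (fun g => by simp) (fun g h hgh => ?_)
      (fun a b c => ?_)
    · have h1 := hξ1 k g h hgh
      have h2 : ((1 / 4 : ℝ) ^ k) = ((1 / 2 : ℝ) ^ k) ^ 2 := by
        rw [← pow_mul, mul_comm, pow_mul]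
        norm_num
      rw [h2] at h1
      exact (pow_le_pow_iff_left₀ (norm_nonneg _) (by positivity) (by norm_num)).1 h1
    · have : ξ k a - ξ k c = (ξ k a - ξ k b) + (ξ k b - ξ k c) := by abel
      show ‖ξ k a - ξ k c‖ ≤ ‖ξ k a - ξ k b‖ + ‖ξ k b - ξ k c‖
      rw [this]
      exact norm_add_le _ _
  have hξs : ∀ k g h, ‖ξ k g - ξ k h‖ ^ 2 ≤ (1 / 4 : ℝ) ^ k * (Γ.dist g h : ℝ) ^ 2 := by
    intro k g h
    refine (pow_le_pow_left₀ (norm_nonneg _) (hξd k g h) 2).trans (le_of_eq ?_)
    rw [mul_pow, ← pow_mul, mul_comm k 2, pow_mul]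
    norm_num
  -- the differences
  obtain ⟨W, hW⟩ : ∃ W : G → G → ℕ × ((ℕ × ℕ × ℕ) × G) → ℝ, W = fun g h x =>
      ξ x.1 g x.2 - ξ x.1 h x.2 := ⟨_, rfl⟩
  have hWk : ∀ g h k, ∑' y, (W g h (k, y)) ^ 2 = ‖ξ k g - ξ k h‖ ^ 2 := by
    intro g h k
    rw [lp_norm_sq, hW]
    rfl
  have hsumk : ∀ g h, Summable fun k => ‖ξ k g - ξ k h‖ ^ 2 := by
    intro g h
    refine Summable.of_nonneg_of_le (fun k => by positivity) (fun k => hξs k g h) ?_
    exact (summable_geometric_of_lt_one (by norm_num) (by norm_num)).mul_right _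
  have hWs : ∀ g h, Summable fun x => (W g h x) ^ 2 := by
    intro g h
    rw [summable_prod_of_nonneg (fun x => by positivity)]
    refine ⟨fun k => ?_, ?_⟩
    · have h1 := (lp.memℓp (ξ k g - ξ k h)).summable (by norm_num)
      simp only [ENNReal.toReal_ofNat, Real.rpow_ofNat, Real.norm_eq_abs, sq_abs] at h1
      rw [hW]
      exact h1
    · simp only [hWk]
      exact hsumk g h
  have hWt : ∀ g h, ∑' x, (W g h x) ^ 2 = ∑' k, ‖ξ k g - ξ k h‖ ^ 2 := by
    intro g h
    rw [(hWs g h).tsum_prod]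
    simp only [hWk]
  -- the embedding
  obtain ⟨f, hf⟩ : ∃ f : G → lp (fun _ : ℕ => ℝ) 2, f = fun g =>
      ⟨Function.extend e (W g 1) 0, ext_mem e he _ (hWs g 1)⟩ := ⟨_, rfl⟩
  have hfd : ∀ g h, ‖f g - f h‖ ^ 2 = ∑' k, ‖ξ k g - ξ k h‖ ^ 2 := by
    intro g h
    have h0 := lp_norm_sq.{0} (f g - f h)
    have h1 : ∀ n, (f g - f h) n = Function.extend e (W g h) 0 n := by
      intro n
      have h2 : (f g - f h) n = Function.extend e (W g 1) 0 n - Function.extend e (W h 1) 0 n := by
        rw [hf]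
        rfl
      rw [h2]
      by_cases hn : ∃ x, e x = n
      · obtain ⟨x, rfl⟩ := hn
        rw [he.extend_apply, he.extend_apply, he.extend_apply, hW]
        show (ξ x.1 g x.2 - ξ x.1 1 x.2) - (ξ x.1 h x.2 - ξ x.1 1 x.2) = ξ x.1 g x.2 - ξ x.1 h x.2
        ring
      · rw [Function.extend_apply' _ _ _ hn, Function.extend_apply' _ _ _ hn,
          Function.extend_apply' _ _ _ hn]
        simp
    rw [h0, ← hWt]
    simp only [h1]
    rw [ext_sq e he, tsum_extend_zero he]
  refine ⟨f, fun t => Real.sqrt (((Finset.range t).filter (fun k => D k < t)).card : ℝ),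
    fun t => 2 * t, ?_, ?_⟩
  · refine Real.tendsto_sqrt_atTop.comp (tendsto_natCast_atTop_atTop.comp ?_)
    rw [tendsto_atTop]
    intro m
    rw [eventually_atTop]
    refine ⟨m + ∑ k ∈ Finset.range m, (D k + 1), fun t ht => ?_⟩
    have hsub : Finset.range m ⊆ (Finset.range t).filter (fun k => D k < t) := by
      intro k hk
      have hk' := Finset.mem_range.1 hk
      have h1 : D k + 1 ≤ ∑ k ∈ Finset.range m, (D k + 1) :=
        Finset.single_le_sum (f := fun k => D k + 1) (fun _ _ => Nat.zero_le _) hk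
      rw [Finset.mem_filter, Finset.mem_range]
      constructor <;> omega
    have := Finset.card_le_card hsub
    rwa [Finset.card_range] at this
  · intro g h
    constructor
    · rw [← Real.sqrt_sq (norm_nonneg (f g - f h)), hfd]
      refine Real.sqrt_le_sqrt ?_
      have h1 := (hsumk g h).sum_le_tsum ((Finset.range (Γ.dist g h)).filter
        (fun k => D k < Γ.dist g h)) (fun k _ => by positivity)
      refine le_trans ?_ h1
      have h2 : ∀ k ∈ (Finset.range (Γ.dist g h)).filter (fun k => D k < Γ.dist g h),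
          ‖ξ k g - ξ k h‖ ^ 2 = 2 := by
        intro k hk
        exact hξ2 k g h (Finset.mem_filter.1 hk).2
      rw [Finset.sum_congr rfl h2, Finset.sum_const, nsmul_eq_mul]
      have : (0 : ℝ) ≤ (((Finset.range (Γ.dist g h)).filter
        (fun k => D k < Γ.dist g h)).card : ℝ) := by positivity
      linarith
    · have h1 : ‖f g - f h‖ ^ 2 ≤ (2 * (Γ.dist g h : ℝ)) ^ 2 := by
        rw [hfd]
        have h2 : Summable fun k : ℕ => (1 / 4 : ℝ) ^ k * (Γ.dist g h : ℝ) ^ 2 :=
          (summable_geometric_of_lt_one (by norm_num) (by norm_num)).mul_right _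
        refine ((hsumk g h).tsum_le_tsum (fun k => hξs k g h) h2).trans ?_
        rw [tsum_mul_right, tsum_geometric_of_lt_one (by norm_num) (by norm_num)]
        have : (0 : ℝ) ≤ (Γ.dist g h : ℝ) ^ 2 := by positivity
        norm_num
        nlinarith
      exact (pow_le_pow_iff_left₀ (norm_nonneg _) (by positivity) (by norm_num)).1 h1

end Pool.Agent.H169C
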